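import Pool.Agent.helper76.UF.Spec

set_option autoImplicit false

namespace Pool.Agent.UF

open Finset Polynomial NumberField

theorem SPL : SPL_stmt := by
  intro m t₀ h1 h2
  obtain ⟨g, t', ht, h⟩ := Nat.exists_eq_two_pow_mul_odd (n := 2 * t₀) (by omega)
  have hg1 : 1 ≤ g := by
    by_contra hc
    have hg0 : g = 0 := by omega
    rw [hg0, pow_zero, one_mul] at h
    obtain ⟨k, hk⟩ := ht
    omega
  have ht1 : 1 ≤ t' := by
    obtain ⟨k, hk⟩ := ht
    omega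
  have hgm : g ≤ m := by
    have h3 : 2 ^ g < 2 ^ (m + 1) := by
      calc 2 ^ g ≤ 2 ^ g * t' := Nat.le_mul_of_pos_right _ ht1
        _ = 2 * t₀ := h.symm
        _ < 2 ^ (m + 1) := by rw [pow_succ]; omega
    have := (Nat.pow_lt_pow_iff_right (by norm_num : 1 < 2)).1 h3
    omega
  refine ⟨g, t', hg1, hgm, ht, h, fun v b hb => ?_⟩
  obtain ⟨c, hc⟩ := hb
  have h' : (2 : ℤ) * (t₀ : ℤ) = 2 ^ g * (t' : ℤ) := by exact_mod_cast h
  have hp : (2 : ℤ) ^ (m + 1) = 2 ^ g * 2 ^ (m + 1 - g) := by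
    rw [← pow_add]
    congr 1
    omega
  refine ⟨t' * v - 2 ^ (m + 1 - g) * (2 * c), 2 * c, ?_, by ring⟩
  rw [hp] at hc
  linear_combination (-2 : ℤ) * hc + v * h'

end Pool.Agent.UF
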